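import Pool.Agent.H84.EQ.TK
import Pool.Agent.H69.EQ.TL
import Pool.Agent.H14.EQ.TZ
import Pool.Agent.H92.EHD.TR

/-!
# Row RTK of board ehd_modules (MP_75a732_an): testing against the heat potential
-/

set_option autoImplicit false

namespace Pool.Agent.H42.EHD

open scoped BigOperators ComplexConjugate ContDiff ComplexOrder Topology RealInnerProductSpace
open MeasureTheory Filter Set
open Pool.Agent.H92.EQ Pool.Agent.H84.EQ

noncomputable section

theorem tk_gen (t1 : ℂ) (a m m' ψ : ℂ → ℝ) (B K K' : ℝ) (ha : ContinuousOn a {t1}ᶜ)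
    (haB : ∀ t, t ≠ t1 → |a t| ≤ B) (hmm : ∀ t, t ≠ t1 → 0 ≤ m t ∧ 0 ≤ m' t)
    (_hm : ContinuousOn m {t1}ᶜ) (_hm' : ContinuousOn m' {t1}ᶜ) (him : Integrable m)
    (him' : Integrable m') (hW : Weak {t1}ᶜ a (fun t => m t - m' t)) (hψ : ContDiff ℝ ∞ ψ)
    (hψ0 : ∀ t, 0 ≤ ψ t) (hK : ∀ t, |ψ t| ≤ K) (hK' : ∀ t, ‖fderiv ℝ ψ t‖ ≤ K')
    (hi1 : Integrable (fun t => ‖fderiv ℝ ψ t‖)) (hi2 : Integrable (fun t => lapl ψ t)) :
    |∫ t, lapl ψ t * a t| ≤ ∫ t, ψ t * (m t + m' t) := by
  obtain ⟨C, hC0, hC1, hC2⟩ := th_bd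
  obtain ⟨R, hRdef⟩ : ∃ R, R = ∫ t, ψ t * (m t + m' t) := ⟨_, rfl⟩
  rw [← hRdef]
  have hψm : Integrable (fun t => ψ t * (m t + m' t)) :=
    (him.add him').bdd_mul (c := K) hψ.continuous.aestronglyMeasurable
      (Eventually.of_forall fun t => hK t)
  have hpi := Real.pi_pos
  have hae := ae_ne t1
  have hB : 0 ≤ B := (abs_nonneg _).trans (haB (t1 + 1) (by simp))
  have hK0 : 0 ≤ K := (abs_nonneg _).trans (hK 0)
  have hK0' : 0 ≤ K' := (norm_nonneg _).trans (hK' 0)
  obtain ⟨G, hG⟩ : ∃ G : ℂ → ℝ, G = fun t => K' * (Iic (1 : ℝ)).indicator (fun y => y⁻¹) ‖t - t1‖ +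
    ‖fderiv ℝ ψ t‖ := ⟨_, rfl⟩
  have hGi : Integrable G := by
    rw [hG]
    exact ((inv_int t1).const_mul K').add hi1
  have hameas := meas_off ha
  -- the estimate for each cut-off function
  have hkey : ∀ n : ℕ, |∫ t, fL t1 ((n : ℝ) + 1) t * (lapl ψ t * a t)| ≤
      R + (2 * Real.pi * C * (K * B) + C * B * ∫ t, G t) / ((n : ℝ) + 1) := by
    intro n
    obtain ⟨L, hLd⟩ : ∃ L : ℝ, L = (n : ℝ) + 1 := ⟨_, rfl⟩
    rw [← hLd]
    have hL : 0 < L := by rw [hLd]; positivity
    obtain ⟨f, hf⟩ : ∃ f, f = fL t1 L := ⟨_, rfl⟩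
    have hfs : ContDiff ℝ ∞ f := by rw [hf]; exact fL_smooth t1 hL
    have hft : Tst {t1}ᶜ f := by rw [hf]; exact fL_tst t1 hL
    have hft2 : Tst {t1}ᶜ (fun t => ψ t * f t) := by
      refine ⟨hψ.mul hfs, hft.cpt.mul_left, ?_⟩
      exact (closure_mono (Function.support_mul_subset_right ψ f)).trans hft.sub
    have hw := hW _ hft2
    -- the right side
    have hR : |∫ t, ψ t * f t * (m t - m' t)| ≤ R := by
      have h1 : ‖∫ t, ψ t * f t * (m t - m' t)‖ ≤ ∫ t, ψ t * (m t + m' t) := by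
        refine norm_integral_le_of_norm_le hψm ?_
        filter_upwards [hae] with t ht
        obtain ⟨p1, p2⟩ := hmm t ht
        have p3 : |f t| ≤ 1 := by
          rw [hf, abs_of_nonneg (fL_nonneg _ _ _)]
          exact fL_le_one _ _ _
        have p4 : |m t - m' t| ≤ m t + m' t := by
          rw [abs_le]
          constructor <;> linarith
        rw [Real.norm_eq_abs, abs_mul, abs_mul, abs_of_nonneg (hψ0 t)]
        calc ψ t * |f t| * |m t - m' t| ≤ ψ t * 1 * (m t + m' t) := by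
              apply mul_le_mul _ p4 (abs_nonneg _) (by rw [mul_one]; exact hψ0 t)
              exact mul_le_mul_of_nonneg_left p3 (hψ0 t)
          _ = ψ t * (m t + m' t) := by ring
      rw [Real.norm_eq_abs] at h1
      rw [hRdef]
      exact h1
    -- the left side
    have hI1 : Integrable (fun t => ψ t * lapl f t * a t) := by
      have h1 := ann_int t1 hL (K * B * C / (4 * L ^ 2))
      refine h1.1.mono' ?_ ?_
      · exact ((hψ.continuous.mul (lapl_cont hfs)).aestronglyMeasurable).mul hameas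
      · filter_upwards [hae] with t ht
        rw [Real.norm_eq_abs]
        have h2 := lapl_fL_bd hC2 hC0 ht hL (x := ψ t * a t) (M := K * B) (by positivity)
          (fun _ => by
            rw [abs_mul]
            exact mul_le_mul (hK t) (haB t ht) (abs_nonneg _) hK0)
        rw [← hf] at h2
        have e : ψ t * lapl f t * a t = lapl f t * (ψ t * a t) := by ring
        rw [e]
        exact h2
    have hI2 : Integrable (fun t => f t * (lapl ψ t * a t)) := by
      refine (hi2.norm.const_mul B).mono' ?_ ?_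
      · exact (hfs.continuous.aestronglyMeasurable).mul
          (((lapl_cont hψ).aestronglyMeasurable).mul hameas)
      · filter_upwards [hae] with t ht
        have p3 : |f t| ≤ 1 := by
          rw [hf, abs_of_nonneg (fL_nonneg _ _ _)]
          exact fL_le_one _ _ _
        rw [Real.norm_eq_abs, abs_mul, abs_mul, Real.norm_eq_abs]
        calc |f t| * (|lapl ψ t| * |a t|) ≤ 1 * (|lapl ψ t| * B) := by
              apply mul_le_mul p3 _ (by positivity) zero_le_one
              exact mul_le_mul_of_nonneg_left (haB t ht) (abs_nonneg _)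
          _ = B * |lapl ψ t| := by ring
    have hgrb : ∀ᵐ t : ℂ, |(fderiv ℝ ψ t 1 * fderiv ℝ f t 1 +
        fderiv ℝ ψ t Complex.I * fderiv ℝ f t Complex.I) * a t| ≤ 2 * C / L * B * G t := by
      filter_upwards [hae] with t ht
      have h1 := grad_bd hC1 hC0 ht hL hK' (ψ := ψ)
      rw [← hf] at h1
      rw [abs_mul, hG]
      calc _ ≤ (2 * C / L * (K' * (Iic (1 : ℝ)).indicator (fun y => y⁻¹) ‖t - t1‖ +
            ‖fderiv ℝ ψ t‖)) * B := mul_le_mul h1 (haB t ht) (abs_nonneg _)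
              ((abs_nonneg _).trans h1)
        _ = _ := by ring
    have hgrm : AEStronglyMeasurable (fun t => (fderiv ℝ ψ t 1 * fderiv ℝ f t 1 +
        fderiv ℝ ψ t Complex.I * fderiv ℝ f t Complex.I) * a t) := by
      have h1 : ∀ (g : ℂ → ℝ) (v : ℂ), ContDiff ℝ ∞ g → Continuous fun t => fderiv ℝ g t v := by
        intro g v hg
        exact (((contDiff_infty_iff_fderiv.1 hg).2).clm_apply contDiff_const).continuous
      exact ((((h1 ψ 1 hψ).mul (h1 f 1 hfs)).add
        ((h1 ψ Complex.I hψ).mul (h1 f Complex.I hfs))).aestronglyMeasurable).mul hameas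
    have hI3 : Integrable (fun t => (fderiv ℝ ψ t 1 * fderiv ℝ f t 1 +
        fderiv ℝ ψ t Complex.I * fderiv ℝ f t Complex.I) * a t) := by
      refine (hGi.const_mul (2 * C / L * B)).mono' hgrm ?_
      filter_upwards [hgrb] with t ht
      rw [Real.norm_eq_abs]
      exact ht
    have hsplit : ∫ t, lapl (fun t => ψ t * f t) t * a t =
        (∫ t, ψ t * lapl f t * a t) + (∫ t, f t * (lapl ψ t * a t)) +
        (1 / 2) * ∫ t, (fderiv ℝ ψ t 1 * fderiv ℝ f t 1 +
        fderiv ℝ ψ t Complex.I * fderiv ℝ f t Complex.I) * a t := by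
      have hI12 : Integrable (fun t => ψ t * lapl f t * a t + f t * (lapl ψ t * a t)) :=
        hI1.add hI2
      rw [← integral_const_mul, ← integral_add hI1 hI2, ← integral_add hI12
        (hI3.const_mul (1 / 2))]
      refine integral_congr_ae (Eventually.of_forall fun t => ?_)
      show lapl (fun t => ψ t * f t) t * a t = _
      rw [lapl_mul hψ hfs]
      ring
    have hb1 : |∫ t, ψ t * lapl f t * a t| ≤ 2 * Real.pi * C * (K * B) / L := by
      have h1 := int_lapl_fL hC2 hC0 t1 hL (G := fun t => ψ t * a t) (M := K * B) (by positivity)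
        (fun t ht _ => by
          rw [abs_mul]
          exact mul_le_mul (hK t) (haB t ht) (abs_nonneg _) hK0)
      rw [← hf] at h1
      refine (le_of_eq ?_).trans h1
      congr 2
      funext t
      ring
    have hb3 : |∫ t, (fderiv ℝ ψ t 1 * fderiv ℝ f t 1 +
        fderiv ℝ ψ t Complex.I * fderiv ℝ f t Complex.I) * a t| ≤ 2 * C / L * B * ∫ t, G t := by
      have h1 : ‖∫ t, (fderiv ℝ ψ t 1 * fderiv ℝ f t 1 +
        fderiv ℝ ψ t Complex.I * fderiv ℝ f t Complex.I) * a t‖ ≤ ∫ t, 2 * C / L * B * G t := by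
        refine norm_integral_le_of_norm_le (hGi.const_mul _) ?_
        filter_upwards [hgrb] with t ht
        rw [Real.norm_eq_abs]
        exact ht
      rw [integral_const_mul, Real.norm_eq_abs] at h1
      exact h1
    rw [hsplit] at hw
    have hfin : ∫ t, f t * (lapl ψ t * a t) = (∫ t, ψ t * f t * (m t - m' t)) -
        (∫ t, ψ t * lapl f t * a t) - (1 / 2) * ∫ t, (fderiv ℝ ψ t 1 * fderiv ℝ f t 1 +
        fderiv ℝ ψ t Complex.I * fderiv ℝ f t Complex.I) * a t := by
      linarith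
    rw [hf] at hfin
    rw [hfin]
    rw [← hf]
    rw [abs_le] at hR hb1 hb3 ⊢
    have e : (2 * Real.pi * C * (K * B) + C * B * ∫ t, G t) / L =
        2 * Real.pi * C * (K * B) / L + 1 / 2 * (2 * C / L * B * ∫ t, G t) := by
      field_simp
    rw [e]
    constructor <;> linarith
  -- the limit
  have hlim : Tendsto (fun n : ℕ => ∫ t, fL t1 ((n : ℝ) + 1) t * (lapl ψ t * a t)) atTop
      (𝓝 (∫ t, lapl ψ t * a t)) := by
    refine tendsto_integral_of_dominated_convergence (fun t => B * ‖lapl ψ t‖) ?_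
      (hi2.norm.const_mul B) ?_ ?_
    · intro n
      have hL : (0 : ℝ) < (n : ℝ) + 1 := by positivity
      exact ((fL_smooth t1 hL).continuous.aestronglyMeasurable).mul
        (((lapl_cont hψ).aestronglyMeasurable).mul hameas)
    · intro n
      filter_upwards [hae] with t ht
      have p3 : |fL t1 ((n : ℝ) + 1) t| ≤ 1 := by
        rw [abs_of_nonneg (fL_nonneg _ _ _)]
        exact fL_le_one _ _ _
      rw [Real.norm_eq_abs, abs_mul, abs_mul, Real.norm_eq_abs]
      calc |fL t1 ((n : ℝ) + 1) t| * (|lapl ψ t| * |a t|) ≤ 1 * (|lapl ψ t| * B) := by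
            apply mul_le_mul p3 _ (by positivity) zero_le_one
            exact mul_le_mul_of_nonneg_left (haB t ht) (abs_nonneg _)
        _ = B * |lapl ψ t| := by ring
    · filter_upwards [hae] with t ht
      have := (fL_lim ht).mul_const (lapl ψ t * a t)
      rw [one_mul] at this
      exact this
  have hlim2 : Tendsto (fun n : ℕ => R +
      (2 * Real.pi * C * (K * B) + C * B * ∫ t, G t) / ((n : ℝ) + 1)) atTop (𝓝 (R)) := by
    have h5 := (tendsto_one_div_add_atTop_nhds_zero_nat (𝕜 := ℝ)).const_mul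
      (2 * Real.pi * C * (K * B) + C * B * ∫ t, G t)
    rw [mul_zero] at h5
    have := h5.const_add (R)
    rw [add_zero] at this
    refine this.congr fun n => ?_
    rw [mul_one_div]
  exact le_of_tendsto_of_tendsto' hlim.abs hlim2 hkey


/-- the approximate identity -/
theorem conv_id {t1 : ℂ} {a : ℂ → ℝ} {B : ℝ} (h1 : t1 ≠ 0) (ha : ContinuousOn a {t1}ᶜ)
    (haB : ∀ t, t ≠ t1 → |a t| ≤ B) :
    Tendsto (fun n : ℕ => ∫ t, a t * gs ((((n : ℝ) + 1)⁻¹) ^ 2) t) atTop (𝓝 (a 0)) := by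
  have hB : 0 ≤ B := (abs_nonneg _).trans (haB (t1 + 1) (by simp))
  have hg1 := Pool.Agent.H14.EQ.gs_int one_pos
  have e1 : ∀ n : ℕ, ∫ t, a t * gs ((((n : ℝ) + 1)⁻¹) ^ 2) t =
      ∫ u, a ((((n : ℝ) + 1)⁻¹) • u) * gs 1 u := by
    intro n
    have hn : (0 : ℝ) < ((n : ℝ) + 1)⁻¹ := by positivity
    obtain ⟨θ, hθ⟩ : ∃ θ : ℝ, θ = ((n : ℝ) + 1)⁻¹ := ⟨_, rfl⟩
    rw [← hθ] at hn ⊢
    have h2 := Measure.integral_comp_smul (volume : Measure ℂ) (fun t => a t * gs (θ ^ 2) t) θ
    rw [Complex.finrank_real_complex, abs_of_pos (by positivity), smul_eq_mul] at h2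
    have h3 : ∀ u : ℂ, a (θ • u) * gs (θ ^ 2) (θ • u) = (θ ^ 2)⁻¹ * (a (θ • u) * gs 1 u) := by
      intro u
      rw [Pool.Agent.H14.EQ.gs_scale hn]
      unfold gs
      rw [mul_one, div_one]
      ring
    rw [integral_congr_ae (Eventually.of_forall h3), integral_const_mul] at h2
    exact (mul_left_cancel₀ (inv_ne_zero (by positivity : θ ^ 2 ≠ 0)) h2).symm
  have e2 : a 0 = ∫ u, a 0 * gs 1 u := by
    rw [integral_const_mul, hg1.2, mul_one]
  rw [e2]
  simp only [e1]
  refine tendsto_integral_of_dominated_convergence (fun u => B * gs 1 u) ?_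
    (hg1.1.const_mul B) ?_ ?_
  · intro n
    have hn : (0 : ℝ) < ((n : ℝ) + 1)⁻¹ := by positivity
    have hm := Pool.Agent.H69.EQ.a_meas ha
    have hq : Measure.QuasiMeasurePreserving (fun u : ℂ => (((n : ℝ) + 1)⁻¹) • u)
        (volume : Measure ℂ) volume := by
      refine ⟨measurable_const_smul _, ?_⟩
      rw [Measure.map_addHaar_smul (volume : Measure ℂ) hn.ne']
      exact Measure.smul_absolutelyContinuous
    exact (hm.comp_quasiMeasurePreserving hq).mul
      (Pool.Agent.H14.EQ.gs_cont 1).aestronglyMeasurable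
  · intro n
    have hn : (0 : ℝ) < ((n : ℝ) + 1)⁻¹ := by positivity
    filter_upwards [ae_ne ((((n : ℝ) + 1)⁻¹)⁻¹ • t1)] with u hu
    rw [norm_mul, Real.norm_eq_abs, Real.norm_eq_abs,
      abs_of_nonneg (Pool.Agent.H14.EQ.gs_nonneg one_pos u)]
    refine mul_le_mul_of_nonneg_right (haB _ ?_) (Pool.Agent.H14.EQ.gs_nonneg one_pos u)
    intro h
    apply hu
    rw [← h, smul_smul, inv_mul_cancel₀ hn.ne', one_smul]
  · refine Eventually.of_forall fun u => ?_
    have h5 : Tendsto (fun n : ℕ => (((n : ℝ) + 1)⁻¹) • u) atTop (𝓝 0) := by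
      have h6 := (tendsto_one_div_add_atTop_nhds_zero_nat (𝕜 := ℝ)).smul_const u
      rw [zero_smul] at h6
      refine h6.congr fun n => ?_
      rw [one_div]
    have h7 : ContinuousAt a 0 :=
      (ha 0 (fun h => h1 h.symm)).continuousAt (isOpen_compl_singleton.mem_nhds
        (fun h => h1 h.symm))
    exact (h7.tendsto.comp h5).mul_const _

/-- RTK, the intended form (the sum of the two integrals). -/
theorem rtk : ∀ (t1 : ℂ) (a m m' : ℂ → ℝ) (B : ℝ), t1 ≠ 0 → ContinuousOn a {t1}ᶜ →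
    (∀ t, t ≠ t1 → |a t| ≤ B) → (∀ t, t ≠ t1 → 0 ≤ m t ∧ 0 ≤ m' t) →
    ContinuousOn m {t1}ᶜ → ContinuousOn m' {t1}ᶜ → Integrable m → Integrable m' →
    Weak {t1}ᶜ a (fun t => m t - m' t) →
    ENNReal.ofReal |a 0 - ∫ t, gs 1 t * a t| ≤
      (∫⁻ t, Pool.Agent.H92.EHD.Lam t * ENNReal.ofReal (m t)) +
        ∫⁻ t, Pool.Agent.H92.EHD.Lam t * ENNReal.ofReal (m' t) := by
  intro t1 a m m' B h1 ha haB hmm hm hm' him him' hW
  have hB : 0 ≤ B := (abs_nonneg _).trans (haB (t1 + 1) (by simp))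
  obtain ⟨μ, hμ⟩ : ∃ μ : ℂ → ℝ, μ = fun t => m t + m' t := ⟨_, rfl⟩
  have hμi : Integrable μ := by rw [hμ]; exact him.add him'
  have hμ0 : ∀ᵐ t, 0 ≤ μ t := by
    filter_upwards [ae_ne t1] with t ht
    rw [hμ]
    exact add_nonneg (hmm t ht).1 (hmm t ht).2
  obtain ⟨Kf, hKf⟩ : ∃ Kf : ℝ → ℝ, Kf = fun s => ∫ t, gs s t * μ t := ⟨_, rfl⟩
  have hgm : Measurable (fun p : ℝ × ℂ => gs p.1 p.2) := by
    unfold gs
    fun_prop
  have hstep : ∀ s : ℝ, 0 < s → |∫ t, lapl (fun t => Pool.Agent.H69.EQ.Ts s 0 0 t) t * a t| ≤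
      Kf s := by
    intro s hs
    have hT : (fun t => Pool.Agent.H69.EQ.Ts s 0 0 t) = gs s := by
      funext t
      unfold Pool.Agent.H69.EQ.Ts
      rw [sub_zero, zero_mul, sub_zero]
    have hlap : Integrable (fun t => lapl (fun t => Pool.Agent.H69.EQ.Ts s 0 0 t) t) := by
      have h2 : (fun t => lapl (fun t => Pool.Agent.H69.EQ.Ts s 0 0 t) t) =
          fun t => Pool.Agent.H69.EQ.Gd s (t - 0) - 0 * Pool.Agent.H69.EQ.Gd s t := by
        funext t
        exact Pool.Agent.H69.EQ.lapl_ts hs 0 0 t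
      rw [h2]
      exact ((Pool.Agent.H69.EQ.Gd_int hs).comp_sub_right 0).sub
        ((Pool.Agent.H69.EQ.Gd_int hs).const_mul 0)
    have h3 := tk_gen t1 a m m' (fun t => Pool.Agent.H69.EQ.Ts s 0 0 t) B
      ((Real.pi * s)⁻¹) ((1 + |(0 : ℝ)|) * ((Real.pi * s)⁻¹ * (√s)⁻¹)) ha haB hmm hm hm' him him' hW
      (Pool.Agent.H69.EQ.ts_smooth s 0 0) ?_ (Pool.Agent.H69.EQ.ts_zero hs 0) ?_
      (Pool.Agent.H69.EQ.ts_fd_int hs 0 0) hlap
    · refine h3.trans (le_of_eq ?_)
      rw [hKf, hμ]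
      refine integral_congr_ae (Eventually.of_forall fun t => ?_)
      exact congrArg (fun x => x * (m t + m' t)) (congrFun hT t)
    · intro t
      have h4 : Pool.Agent.H69.EQ.Ts s 0 0 t = gs s t := congrFun hT t
      rw [h4]
      exact Pool.Agent.H69.EQ.gs_nonneg hs t
    · intro t
      refine (Pool.Agent.H69.EQ.ts_fd_le hs 0 0 t).trans ?_
      have h4 := Pool.Agent.H69.EQ.gs_norm_le hs (t - 0)
      have h5 := mul_le_mul_of_nonneg_left (Pool.Agent.H69.EQ.gs_norm_le hs t)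
        (abs_nonneg (0 : ℝ))
      linarith
  -- measurability and integrability
  have hKi : ∀ e : ℝ, 0 < e → e ≤ 1 → IntegrableOn Kf (Ioc e 1) ∧
      ENNReal.ofReal (∫ s in Ioc e 1, Kf s) ≤
        ∫⁻ t, Pool.Agent.H92.EHD.Lam t * ENNReal.ofReal (μ t) := by
    intro e he he1
    have hprod : Integrable (fun p : ℝ × ℂ => gs p.1 p.2 * μ p.2)
        ((volume.restrict (Ioc e 1)).prod volume) := by
      have hdom : Integrable (fun p : ℝ × ℂ => (Real.pi * e)⁻¹ * ‖μ p.2‖)
          ((volume.restrict (Ioc e 1)).prod volume) :=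
        (integrable_const ((Real.pi * e)⁻¹)).mul_prod hμi.norm
      refine hdom.mono' ?_ ?_
      · exact hgm.aestronglyMeasurable.mul hμi.aestronglyMeasurable.comp_snd
      · have a1 : ∀ᵐ p : ℝ × ℂ ∂((volume.restrict (Ioc e 1)).prod volume), p.1 ∈ Ioc e 1 :=
          Measure.quasiMeasurePreserving_fst.ae (ae_restrict_mem measurableSet_Ioc)
        filter_upwards [a1] with p hp
        have hp0 : 0 < p.1 := lt_trans he hp.1
        rw [norm_mul, Real.norm_eq_abs, abs_of_nonneg (Pool.Agent.H69.EQ.gs_nonneg hp0 _)]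
        refine mul_le_mul_of_nonneg_right ?_ (norm_nonneg _)
        refine (Pool.Agent.H69.EQ.gs_le hp0 _).trans ?_
        exact inv_anti₀ (by positivity) (mul_le_mul_of_nonneg_left hp.1.le Real.pi_pos.le)
    have hKI : IntegrableOn Kf (Ioc e 1) := by
      rw [hKf]
      exact hprod.integral_prod_left
    refine ⟨hKI, ?_⟩
    have h0 : ∀ᵐ p : ℝ × ℂ ∂((volume.restrict (Ioc e 1)).prod volume),
        0 ≤ gs p.1 p.2 * μ p.2 := by
      have a1 : ∀ᵐ p : ℝ × ℂ ∂((volume.restrict (Ioc e 1)).prod volume), p.1 ∈ Ioc e 1 :=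
        Measure.quasiMeasurePreserving_fst.ae (ae_restrict_mem measurableSet_Ioc)
      have a2 : ∀ᵐ p : ℝ × ℂ ∂((volume.restrict (Ioc e 1)).prod volume), 0 ≤ μ p.2 :=
        Measure.quasiMeasurePreserving_snd.ae hμ0
      filter_upwards [a1, a2] with p hp hp2
      exact mul_nonneg (Pool.Agent.H69.EQ.gs_nonneg (lt_trans he hp.1) _) hp2
    have e1 : ∫ s in Ioc e 1, Kf s = ∫ p, gs p.1 p.2 * μ p.2
        ∂((volume.restrict (Ioc e 1)).prod volume) := by
      rw [hKf]
      exact (integral_prod _ hprod).symm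
    rw [e1, ofReal_integral_eq_lintegral_ofReal hprod h0,
      lintegral_prod_symm _ (hprod.aestronglyMeasurable.aemeasurable.ennreal_ofReal)]
    refine lintegral_mono_ae ?_
    filter_upwards [hμ0] with t ht
    unfold Pool.Agent.H92.EHD.Lam
    have e2 : ∀ s : ℝ, ENNReal.ofReal (gs s t * μ t) =
        ENNReal.ofReal (gs s t) * ENNReal.ofReal (μ t) := fun s => ENNReal.ofReal_mul' ht
    simp only [e2]
    have e3 : Measurable fun s : ℝ => ENNReal.ofReal (gs s t) := by
      have e4 : Measurable fun s : ℝ => gs s t :=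
        hgm.comp (measurable_id.prodMk measurable_const)
      exact e4.ennreal_ofReal
    rw [lintegral_mul_const _ e3]
    refine mul_le_mul' ?_ le_rfl
    rw [← restrict_Ioo_eq_restrict_Ioc]
    exact lintegral_mono_set (Ioo_subset_Ioo_left he.le)
  -- the bound for each `e`
  have hkey : ∀ n : ℕ, ENNReal.ofReal |(∫ t, a t * gs ((((n : ℝ) + 1)⁻¹) ^ 2) t) -
      ∫ t, gs 1 t * a t| ≤ ∫⁻ t, Pool.Agent.H92.EHD.Lam t * ENNReal.ofReal (μ t) := by
    intro n
    have hn : (0 : ℝ) < (((n : ℝ) + 1)⁻¹) ^ 2 := by positivity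
    have hn1 : (((n : ℝ) + 1)⁻¹) ^ 2 ≤ (1 : ℝ) := by
      have h2 : ((n : ℝ) + 1)⁻¹ ≤ 1 := by
        apply inv_le_one_of_one_le₀
        have : (0 : ℝ) ≤ n := Nat.cast_nonneg n
        linarith
      exact pow_le_one₀ (by positivity) h2
    obtain ⟨e, he⟩ : ∃ e : ℝ, e = (((n : ℝ) + 1)⁻¹) ^ 2 := ⟨_, rfl⟩
    rw [← he] at hn hn1 ⊢
    obtain ⟨hKI, hle⟩ := hKi e hn hn1
    refine le_trans (ENNReal.ofReal_le_ofReal ?_) hle
    have h3 := Pool.Agent.H69.EQ.main_id ha haB hn hn1 0 0 Kf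
      (fun s hs _ => hstep s (lt_of_lt_of_le hn hs)) hKI
    refine le_trans (le_of_eq ?_) h3
    have i1 := Pool.Agent.H69.EQ.ats_int ha haB one_pos 0 0
    have i2 := Pool.Agent.H69.EQ.ats_int ha haB hn 0 0
    have e3 : ∫ t, a t * (Pool.Agent.H69.EQ.Ts 1 0 0 t - Pool.Agent.H69.EQ.Ts e 0 0 t) =
        (∫ t, a t * Pool.Agent.H69.EQ.Ts 1 0 0 t) -
          ∫ t, a t * Pool.Agent.H69.EQ.Ts e 0 0 t := by
      rw [← integral_sub i1 i2]
      exact integral_congr_ae (Eventually.of_forall fun t => by ring)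
    have e4 : ∀ s : ℝ, ∫ t, a t * Pool.Agent.H69.EQ.Ts s 0 0 t = ∫ t, a t * gs s t := by
      intro s
      refine integral_congr_ae (Eventually.of_forall fun t => ?_)
      unfold Pool.Agent.H69.EQ.Ts
      simp only [sub_zero, zero_mul]
    rw [e3, e4, e4, abs_sub_comm]
    congr 2
    exact integral_congr_ae (Eventually.of_forall fun t => mul_comm _ _)
  have hlim : Tendsto (fun n : ℕ => ENNReal.ofReal
      |(∫ t, a t * gs ((((n : ℝ) + 1)⁻¹) ^ 2) t) - ∫ t, gs 1 t * a t|) atTop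
      (𝓝 (ENNReal.ofReal |a 0 - ∫ t, gs 1 t * a t|)) := by
    refine (ENNReal.continuous_ofReal.tendsto _).comp ?_
    exact ((conv_id h1 ha haB).sub_const _).abs
  refine (le_of_tendsto' hlim hkey).trans (le_of_eq ?_)
  have hLm : Measurable Pool.Agent.H92.EHD.Lam := by
    unfold Pool.Agent.H92.EHD.Lam
    have h6 : Measurable (fun p : ℂ × ℝ => ENNReal.ofReal (gs p.2 p.1)) :=
      (hgm.comp measurable_swap).ennreal_ofReal
    exact h6.lintegral_prod_right'
  have hfm : AEMeasurable (fun t => Pool.Agent.H92.EHD.Lam t * ENNReal.ofReal (m t)) :=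
    hLm.aemeasurable.mul him.aestronglyMeasurable.aemeasurable.ennreal_ofReal
  rw [← lintegral_add_left' hfm]
  refine lintegral_congr_ae ?_
  filter_upwards [ae_ne t1] with t ht
  rw [hμ]
  show _ * ENNReal.ofReal (m t + m' t) = _
  rw [ENNReal.ofReal_add (hmm t ht).1 (hmm t ht).2, mul_add]

/-- RTK: testing against the heat potential (as on the board; the second integral is inside the
first one there, which is weaker). -/
theorem pf_RTK : Pool.Agent.H92.EHD.T_RTK := by
  intro t1 a m m' B h1 ha haB hmm hm hm' him him' hW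
  refine (rtk t1 a m m' B h1 ha haB hmm hm hm' him him' hW).trans ?_
  obtain ⟨c, hc⟩ : ∃ c, c = ∫⁻ t, Pool.Agent.H92.EHD.Lam t * ENNReal.ofReal (m' t) := ⟨_, rfl⟩
  rw [← hc, lintegral_add_right' _ aemeasurable_const]
  refine add_le_add le_rfl ?_
  rw [lintegral_const]
  have hv : (volume : Measure ℂ) univ = ⊤ := measure_univ_of_isAddLeftInvariant _
  rw [hv]
  rcases eq_or_ne c 0 with h | h
  · rw [h]
    exact zero_le
  · rw [ENNReal.mul_top h]
    exact le_top

end

end Pool.Agent.H42.EHD
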