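import Pool.Agent.H92.EHD.TP
import Pool.Agent.H14.EQ.PZ

/-!
# Row EPZ of board ehd_modules (MP_75a732_an): the block P
-/

set_option autoImplicit false

namespace Pool.Agent.H42.EHD

open scoped BigOperators ComplexConjugate ContDiff ComplexOrder
open MeasureTheory
open Pool.Agent.H92.EQ Pool.Agent.H80.EQ Pool.Agent.H92.EHD Pool.Agent.H14.EQ

theorem crL_meas {k : ℕ} (F : Fin (k + 1) → MvPolynomial (Fin (k + 1)) ℂ) (d : ℕ) (r : ℝ) :
    MeasurableSet (CrL F d r) := by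
  have h1 : Continuous fun z : Fin (k + 1) → ℂ => MvPolynomial.eval z (lowP F) :=
    MvPolynomial.continuous_eval _
  have h3 : Measurable fun z : Fin (k + 1) → ℂ => nv (lowP F) (k * (d - 1)) z := by
    unfold nv
    exact h1.norm.measurable.div (nrm_cont.pow _).measurable
  exact measurableSet_lt h3 measurable_const

theorem pf_EPZ (hEPN : T_EPN) (hEPF : T_EPF) (hEPC : T_EPC) (hEPE : T_EPE) (hEPR : T_EPR)
    (hPVI : T_PVI) (hPMK : T_PMK) (_hEKB : T_EKB) (hP1 : T_P1) (hP3 : T_P3) (hD12 : T_D12) :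
    T_EPZ := by
  intro k0 d F K hk0 hd hF hL hT hK η hη
  obtain ⟨k, rfl⟩ : ∃ k, k0 = k + 1 := ⟨k0 - 1, by omega⟩
  obtain ⟨P, M, hP⟩ := hEPN (k + 1) d F hk0 hd hF
  obtain ⟨CF, hCF, hfv⟩ := hEPF k d M F P hd hF hP hL hT
  obtain ⟨t, s, A, h, e, C, δ, c, r0, ε0, hI, hne, hδ, hδ1, hc, hr0, hr01, hε0, hesc⟩ :=
    hEPC (k + 1) d M F P CF hk0 hd hF hP.hom hP.pos hP.nx hCF hfv
  obtain ⟨s0, hs0, hs⟩ := phi_low hI.hom hK.1 hK.2.1 (fun z hz hz0 hall0 =>
    hK.2.2 (Set.range h) (by rintro _ ⟨i, rfl⟩; exact ⟨_, hI.hom i⟩)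
      (by
        obtain ⟨z1, hz1, hz10, i, hi⟩ := hne
        exact ⟨z1, hz1, hz10, _, ⟨i, rfl⟩, hi⟩)
      (fun w hw => by simpa using hI.inv w hw) z hz hz0 (by simpa using hall0))
  obtain ⟨c1, hc1, hc11, hrj, -⟩ := hEPR (k + 1) d M F P hk0 hd hF hP
  obtain ⟨θ, B, n0, hθ, hB, hren⟩ := hEPE (k + 1) d M F P CF t s A h e C δ c r0 ε0 hd hF.isH
    hP.ne hP.hom hP.pos hCF hfv hI hδ hδ1 hc hr0 hr01 hε0 hesc s0 (1 / c1) hs0 (by positivity)
  have hθ0 : 0 < θ := by linarith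
  have ht1 : 1 / θ < 1 := by rw [div_lt_one hθ0]; exact hθ
  have ht0 : 0 < 1 / θ := by positivity
  obtain ⟨m, hm⟩ : ∃ m : ℕ, B * ((1 / θ) ^ m / (1 - 1 / θ)) ≤ η := by
    have h1 : 0 < η * (1 - 1 / θ) / B := div_pos (mul_pos hη (by linarith)) hB
    obtain ⟨m, hm⟩ := exists_pow_lt_of_lt_one h1 ht1
    refine ⟨m, ?_⟩
    rw [lt_div_iff₀ hB] at hm
    rw [← mul_div_assoc, div_le_iff₀ (by linarith)]
    linarith
  refine ⟨m + 1, n0, fun n hn => ⟨fun i => B * (1 / θ) ^ (i - 1), fun i => by positivity,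
    ?_, ?_⟩⟩
  · rcases le_or_gt (m + 1) n with hmn | hmn
    · rw [← Finset.mul_sum]
      have h1 : ∑ i ∈ Finset.Icc (m + 1) n, (1 / θ) ^ (i - 1) =
          ∑ i ∈ Finset.Ico m n, (1 / θ) ^ i := by
        rw [show Finset.Icc (m + 1) n = Finset.Ico (m + 1) (n + 1) from by ext; simp,
          ← Finset.sum_Ico_add' (fun i => (1 / θ) ^ (i - 1)) m n 1]
        rfl
      rw [h1]
      refine le_trans (mul_le_mul_of_nonneg_left
        (geom_sum_Ico_le_of_lt_one ht0.le ht1) hB.le) hm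
    · rw [Finset.Icc_eq_empty (by omega), Finset.sum_empty]
      exact hη.le
  · intro i hi σ hσ hKσ hmass
    rw [Finset.mem_Icc] at hi
    set r : ℝ := Real.exp (-((d : ℝ) ^ n / (n : ℝ) ^ 4)) with hr
    have hrp : 0 < r := Real.exp_pos _
    have hc2 : 0 < 1 / c1 * r := by positivity
    have hv := hPVI (k + 1 + 1) M P (1 / c1 * r) hP.hom hc2
    have hKσ' : InK {z | s0 ≤ phi h e z} σ := by
      intro z hz hzn I J
      exact hKσ z hz (fun hzK => hzn (hs z hzK hz)) I J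
    have h1 := hren n hn (i - 1) (by omega) σ hσ hKσ'
    have h2 := (hPMK (k + 1) d (i - 1) 1 F σ hd hF.isH hσ).2.1 (vis P M (1 / c1 * r)) hv.1
    have h3 : i - 1 + 1 = i := by omega
    rw [h3] at h2
    have h4 : pair (Set.indicator (CrL F d r) (fun _ => 1)) (Sn F d i σ)
        (fun _ : Fin 0 => ell) ≤
        EE F d i σ (fun x => vis P M (1 / c1 * r) (ev (iter F 1) x)) := by
      unfold EE
      refine pair_mono hP1 hP3 ((hD12 (k + 1 + 1) d F (by omega) hF.isH i i).2.2.2.2 (k + 1) σ hσ)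
        (B := 1) (measurable_const.indicator (crL_meas F d r)) ?_ ?_ ?_
      · intro z _
        by_cases hz : z ∈ CrL F d r
        · simp [Set.indicator_of_mem hz]
        · simp [Set.indicator_of_notMem hz]
      · rw [it_one]
        refine hv.1.smooth.continuousOn.comp (ev_cont F).continuousOn ?_
        intro z hz hz0
        exact hz (hF.isH.nd z hz0)
      · intro z hz
        rw [it_one]
        by_cases hzC : z ∈ CrL F d r
        · rw [Set.indicator_of_mem hzC, hv.2.2.1]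
          have h5 := hrj z hz
          have h6 : nv (lowP F) ((k + 1) * (d - 1)) z < r := hzC
          rw [div_mul_eq_mul_div, one_mul, le_div_iff₀ hc1]
          linarith
        · rw [Set.indicator_of_notMem hzC]
          exact (hv.2.1 _).1
    rw [h2] at h4
    rw [hmass] at h1
    refine h4.trans (h1.trans (le_of_eq ?_))
    change B / θ ^ (i - 1) * _ = B * (1 / θ) ^ (i - 1) * _
    rw [one_div_pow, mul_one_div]

end Pool.Agent.H42.EHD
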